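import Mathlib

/-!
# Controlled strongly graded rings which are not crossed products exist for every group

For a group `G` the assertion `every strongly G-graded, G-controlled ring is a G-crossed product`
holds if and only if `G` is trivial.

Construction, for a nontrivial group `G` and any field `k`. Let `Ω` be the set of all functions
`G × ℕ → {0,1,2}`. For a finite set `F` of coordinates and `i, j ∈ Ω` let `e F i j` be the operator
`f ↦ (x ↦ f (x with the coordinates in F replaced by those of j)` if `x = i` on `F`, and `0` if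
not) on `k^Ω`, and let `u g` be the shift by `g`. The number of letters `2` of `i` in the
coordinates `F ∩ ({h} × ℕ)`, modulo 2, is `par F i h`. The component of degree `g` is spanned by all
`e F i j * u g` with `par F i + par F j = δ_1 + δ_g`. So the component of degree `1` is an infinite
tensor product (over `G`) of copies of the simple algebra of even elements of the UHF algebra
`3^∞`. A unit of degree `g ≠ 1` would give a bijection between the words `F → {0,1,2}` with even
and with odd number of letters `2` at the coordinates over `1 ∈ G`; but the number of all words is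
odd.
-/

set_option autoImplicit false
set_option maxHeartbeats 400000

universe u v w

namespace Pool.Agent.Results.MP_26bbbf_al.EveryGroup

section Defs

variable {G : Type u} {R : Type v} [Group G] [Ring R]

/-- `R_H`, the sum of the components `A h`, `h ∈ H`. -/
def Part (A : G → AddSubgroup R) (H : Set G) : AddSubgroup R := ⨆ h ∈ H, A h

/-- `R` is the direct sum of the `A g`, and `A g * A h ⊆ A (g h)`. -/
structure IsGraded (A : G → AddSubgroup R) : Prop where
  indep : iSupIndep A
  top : ⨆ g, A g = ⊤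
  mul_mem : ∀ g h : G, ∀ x ∈ A g, ∀ y ∈ A h, x * y ∈ A (g * h)

/-- The finite sums of products of elements of `A g` and `A h` are exactly the elements
of `A (g h)`. -/
def IsStrong (A : G → AddSubgroup R) : Prop :=
  ∀ g h : G, AddSubgroup.closure {z | ∃ x ∈ A g, ∃ y ∈ A h, z = x * y} = A (g * h)

/-- `M` is a sub-bimodule of `R` over the component of degree `1`. -/
def IsSub (A : G → AddSubgroup R) (M : AddSubgroup R) : Prop :=
  ∀ a ∈ A 1, ∀ x ∈ M, a * x ∈ M ∧ x * a ∈ M

/-- `M` and `N` are isomorphic as bimodules over the component of degree `1`. -/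
def BimodIso (A : G → AddSubgroup R) (M N : AddSubgroup R) : Prop :=
  ∃ f : M ≃+ N, ∀ a ∈ A 1, ∀ x y : M,
    ((y : R) = a * x → (f y : R) = a * f x) ∧ ((y : R) = x * a → (f y : R) = f x * a)

/-- The graded ring is `G`-controlled: `H ↦ R_H` is a bijection from the subsets of `G` to the
sub-bimodules, and `R_S`, `R_T` are isomorphic bimodules only if `S = T`. -/
structure IsControlled (A : G → AddSubgroup R) : Prop where
  bij : Set.BijOn (Part A) Set.univ {M | IsSub A M}
  iso : ∀ S T : Set G, BimodIso A (Part A S) (Part A T) → S = T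

/-- Every component contains a unit of `R`. -/
def IsCrossedProduct (A : G → AddSubgroup R) : Prop := ∀ g, ∃ x ∈ A g, IsUnit x

end Defs

section Abstract

variable {G : Type u} {R : Type v} [Group G] [Ring R]

structure Good (A : G → AddSubgroup R) : Prop where
  one : (1 : R) ∈ A 1
  top : ⨆ g, A g = ⊤
  mul : ∀ g h : G, ∀ x ∈ A g, ∀ y ∈ A h, x * y ∈ A (g * h)
  simple : ∀ (g : G) (x : R), x ∈ A g → x ≠ 0 → ∀ M, IsSub A M → x ∈ M → A g ≤ M
  sep : ∀ (g : G) (x : R), x ∈ A g → x ≠ 0 → ∀ (s : Finset G), g ∉ s → ∀ y : G → R,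
    (∀ h, y h ∈ A h) → ∃ p ∈ A 1, ∃ q ∈ A 1, p * x * q ≠ 0 ∧ ∀ h ∈ s, p * y h * q = 0
  prod : ∀ g, ∃ x ∈ A g⁻¹, ∃ y ∈ A g, x * y ≠ 0

theorem exists_sum {A : G → AddSubgroup R} {S : Set G} {x : R} (hx : x ∈ Part A S) :
    ∃ y : G →₀ R, (∀ h, y h ∈ A h) ∧ (∀ h ∈ y.support, h ∈ S) ∧ x = y.sum fun _ r => r := by
  classical
  let N : AddSubgroup R :=
    { carrier := {x | ∃ y : G →₀ R, (∀ h, y h ∈ A h) ∧ (∀ h ∈ y.support, h ∈ S) ∧
        x = y.sum fun _ r => r}
      zero_mem' := ⟨0, fun h => by simp, by simp, by simp⟩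
      add_mem' := by
        rintro _ _ ⟨y, h1, h2, rfl⟩ ⟨y', h1', h2', rfl⟩
        refine ⟨y + y', fun h => add_mem (h1 h) (h1' h), fun h hh => ?_, ?_⟩
        · rcases Finset.mem_union.1 (Finsupp.support_add hh) with h' | h'
          exacts [h2 h h', h2' h h']
        · rw [Finsupp.sum_add_index' (fun _ => rfl) (fun _ _ _ => rfl)]
      neg_mem' := by
        rintro _ ⟨y, h1, h2, rfl⟩
        refine ⟨-y, fun h => neg_mem (h1 h), fun h hh => h2 h (by simpa using hh), ?_⟩
        rw [Finsupp.sum_neg_index (fun _ => rfl)]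
        simp [Finsupp.sum] }
  have : Part A S ≤ N := iSup₂_le fun h hh a ha => by
    refine ⟨Finsupp.single h a, fun g => ?_, fun g hg => ?_, by simp⟩
    · by_cases e : h = g
      · subst e; simpa using ha
      · rw [Finsupp.single_eq_of_ne (Ne.symm e)]; exact zero_mem _
    · have := Finsupp.support_single_subset hg
      rw [Finset.mem_singleton] at this
      exact this ▸ hh
  exact this hx

theorem isSub_part {A : G → AddSubgroup R}
    (hm : ∀ g h : G, ∀ x ∈ A g, ∀ y ∈ A h, x * y ∈ A (g * h)) (S : Set G) :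
    IsSub A (Part A S) := by
  intro a ha x hx
  have key : ∀ b : R →+ R, (∀ g, ∀ z ∈ A g, b z ∈ A g) → ∀ z ∈ Part A S, b z ∈ Part A S := by
    intro b hb
    have : Part A S ≤ (Part A S).comap b := iSup₂_le fun h hh z hz =>
      (le_iSup₂_of_le (f := fun g (_ : g ∈ S) => A g) h hh le_rfl) (hb h z hz)
    exact fun z hz => this hz
  constructor
  · exact key (AddMonoidHom.mulLeft a) (fun g z hz => by
      have := hm 1 g a ha z hz
      rwa [one_mul] at this) x hx
  · exact key (AddMonoidHom.mulRight a) (fun g z hz => by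
      have := hm g 1 z hz a ha
      rwa [mul_one] at this) x hx

variable {A : G → AddSubgroup R} (hA : Good A)
include hA

theorem Good.sep' {g : G} {x z : R} {S : Set G} (hx : x ∈ A g) (h0 : x ≠ 0) (hz : z ∈ Part A S)
    (hg : g ∉ S) : ∃ p ∈ A 1, ∃ q ∈ A 1, p * x * q ≠ 0 ∧ p * z * q = 0 := by
  obtain ⟨y, h1, h2, rfl⟩ := exists_sum hz
  obtain ⟨p, hp, q, hq, h3, h4⟩ := hA.sep g x hx h0 y.support (fun h => hg (h2 g h)) y h1
  refine ⟨p, hp, q, hq, h3, ?_⟩
  rw [Finsupp.sum, Finset.mul_sum, Finset.sum_mul]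
  exact Finset.sum_eq_zero h4

theorem Good.eq_zero {g : G} {x : R} {S : Set G} (hx : x ∈ A g) (hz : x ∈ Part A S)
    (hg : g ∉ S) : x = 0 := by
  by_contra h0
  obtain ⟨p, -, q, -, h1, h2⟩ := hA.sep' hx h0 hz hg
  exact h1 h2

theorem Good.graded : IsGraded A := by
  refine ⟨iSupIndep_def.2 fun g => AddSubgroup.disjoint_def.2 fun {x} h1 h2 => ?_, hA.top, hA.mul⟩
  exact hA.eq_zero (S := {j | j ≠ g}) h1 h2 (by simp)

theorem Good.split (a : G) (x : R) : ∃ y ∈ A a, ∃ z ∈ Part A {a}ᶜ, x = y + z := by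
  have h : (⊤ : AddSubgroup R) ≤ A a ⊔ Part A {a}ᶜ := by
    rw [← hA.top]
    refine iSup_le fun g => ?_
    by_cases e : g = a
    · subst e; exact le_sup_left
    · exact le_sup_of_le_right (le_iSup₂_of_le (f := fun g (_ : g ∈ ({a}ᶜ : Set G)) => A g) g
        e le_rfl)
  obtain ⟨y, hy, z, hz, e⟩ := AddSubgroup.mem_sup.1 (h (AddSubgroup.mem_top x))
  exact ⟨y, hy, z, hz, e.symm⟩

theorem Good.ne (g : G) : ∃ y ∈ A g, y ≠ 0 := by
  obtain ⟨x, -, y, hy, h⟩ := hA.prod g
  exact ⟨y, hy, right_ne_zero_of_mul h⟩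

theorem Good.strong : IsStrong A := by
  intro g h
  have hle : AddSubgroup.closure {z | ∃ x ∈ A g, ∃ y ∈ A h, z = x * y} ≤ A (g * h) := by
    rw [AddSubgroup.closure_le]
    rintro _ ⟨x, hx, y, hy, rfl⟩
    exact hA.mul g h x hx y hy
  refine le_antisymm hle ?_
  have hsub : IsSub A (AddSubgroup.closure {z | ∃ x ∈ A g, ∃ y ∈ A h, z = x * y}) := by
    intro a ha z hz
    induction hz using AddSubgroup.closure_induction with
    | mem z hz =>
      obtain ⟨x, hx, y, hy, rfl⟩ := hz
      refine ⟨AddSubgroup.subset_closure ⟨a * x, ?_, y, hy, (mul_assoc _ _ _).symm⟩,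
        AddSubgroup.subset_closure ⟨x, hx, y * a, ?_, mul_assoc _ _ _⟩⟩
      · have := hA.mul 1 g a ha x hx
        rwa [one_mul] at this
      · have := hA.mul h 1 y hy a ha
        rwa [mul_one] at this
    | zero => simp
    | add x y _ _ hx hy => rw [mul_add, add_mul]; exact ⟨add_mem hx.1 hy.1, add_mem hx.2 hy.2⟩
    | neg x _ hx => rw [mul_neg, neg_mul]; exact ⟨neg_mem hx.1, neg_mem hx.2⟩
  obtain ⟨x, hx, y, hy, hxy⟩ : ∃ x ∈ A g, ∃ y ∈ A h, x * y ≠ 0 := by
    by_contra! hc
    let M : AddSubgroup R :=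
      { carrier := {r | ∀ y ∈ A h, r * y = 0}
        zero_mem' := fun y _ => zero_mul y
        add_mem' := fun {a b} h1 h2 y hy => by rw [add_mul, h1 y hy, h2 y hy, add_zero]
        neg_mem' := fun {a} h1 y hy => by rw [neg_mul, h1 y hy, neg_zero] }
    have hM : IsSub A M := by
      intro a ha r hr
      refine ⟨fun y hy => by rw [mul_assoc, hr y hy, mul_zero], fun y hy => ?_⟩
      rw [mul_assoc]
      refine hr _ ?_
      have := hA.mul 1 h a ha y hy
      rwa [one_mul] at this
    obtain ⟨x', hx', y', hy', hne⟩ := hA.prod g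
    have hmem : x' * y' ∈ A 1 := by
      have := hA.mul _ _ x' hx' y' hy'
      rwa [inv_mul_cancel] at this
    have h1 := hA.simple 1 _ hmem hne M hM (fun y hy => by rw [mul_assoc, hc y' hy' y hy, mul_zero])
      hA.one
    obtain ⟨y, hy, hy0⟩ := hA.ne h
    exact hy0 (by simpa using h1 y hy)
  exact hA.simple _ _ (hA.mul g h x hx y hy) hxy _ hsub (AddSubgroup.subset_closure ⟨x, hx, y, hy, rfl⟩)

theorem Good.subset {S T : Set G} (f : Part A S ≃+ Part A T)
    (hf : ∀ a ∈ A 1, ∀ x y : Part A S, ((y : R) = a * x → (f y : R) = a * f x) ∧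
      ((y : R) = x * a → (f y : R) = f x * a)) : S ⊆ T := by
  intro g hg
  by_contra hT
  obtain ⟨y, hy, hy0⟩ := hA.ne g
  have hyS : y ∈ Part A S := (le_iSup₂_of_le (f := fun g (_ : g ∈ S) => A g) g hg le_rfl) hy
  obtain ⟨p, hp, q, hq, h1, h2⟩ := hA.sep' hy hy0 (f ⟨y, hyS⟩).2 hT
  have m1 := (isSub_part hA.mul S p hp y hyS).1
  have m2 := (isSub_part hA.mul S q hq _ m1).2
  have e1 := (hf p hp ⟨y, hyS⟩ ⟨_, m1⟩).1 rfl
  have e2 := (hf q hq ⟨_, m1⟩ ⟨_, m2⟩).2 rfl
  rw [e1, h2] at e2
  have e3 : f ⟨_, m2⟩ = 0 := Subtype.ext e2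
  rw [EmbeddingLike.map_eq_zero_iff] at e3
  exact h1 (congrArg Subtype.val e3)

theorem Good.iso (S T : Set G) (h : BimodIso A (Part A S) (Part A T)) : S = T := by
  obtain ⟨f, hf⟩ := h
  refine (hA.subset f hf).antisymm (hA.subset f.symm fun a ha x y => ?_)
  have m1 := (isSub_part hA.mul S a ha _ (f.symm x).2).1
  have m2 := (isSub_part hA.mul S a ha _ (f.symm x).2).2
  refine ⟨fun h => ?_, fun h => ?_⟩
  · have e1 := (hf a ha (f.symm x) ⟨_, m1⟩).1 rfl
    rw [f.apply_symm_apply, ← h] at e1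
    have e2 : f ⟨_, m1⟩ = y := Subtype.ext e1
    rw [← e2, f.symm_apply_apply]
  · have e1 := (hf a ha (f.symm x) ⟨_, m2⟩).2 rfl
    rw [f.apply_symm_apply, ← h] at e1
    have e2 : f ⟨_, m2⟩ = y := Subtype.ext e1
    rw [← e2, f.symm_apply_apply]

theorem Good.controlled : IsControlled A := by
  classical
  refine ⟨⟨fun S _ => isSub_part hA.mul S, fun S _ T _ e => hA.iso S T ?_, fun M hM => ?_⟩, hA.iso⟩
  · have e' : Part A S = Part A T := e
    rw [e']
    exact ⟨AddEquiv.refl _, fun _ _ _ _ => ⟨id, id⟩⟩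
  · refine ⟨{g | A g ≤ M}, trivial, le_antisymm (iSup₂_le fun g hg => hg) fun x hx => ?_⟩
    have hxt : x ∈ Part A Set.univ := by
      have : x ∈ ⨆ g, A g := by rw [hA.top]; trivial
      simpa [Part] using this
    obtain ⟨y, h1, -, h3⟩ := exists_sum hxt
    have hle : ∀ h ∈ y.support, A h ≤ M := by
      intro h hh
      have hy0 : y h ≠ 0 := Finsupp.mem_support_iff.1 hh
      obtain ⟨p, hp, q, hq, h4, h5⟩ := hA.sep h (y h) (h1 h) hy0 (y.support.erase h)
        (Finset.notMem_erase h _) y h1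
      have e : p * x * q = p * y h * q := by
        rw [h3, Finsupp.sum, ← Finset.add_sum_erase _ _ hh, mul_add, add_mul, Finset.mul_sum,
          Finset.sum_mul, Finset.sum_eq_zero h5, add_zero]
      refine hA.simple h _ ?_ h4 M hM ?_
      · have h6 := hA.mul 1 h p hp _ (h1 h)
        rw [one_mul] at h6
        have h7 := hA.mul h 1 _ h6 q hq
        rwa [mul_one] at h7
      · rw [← e]
        exact (hM q hq _ (hM p hp x hx).1).2
    rw [h3]
    refine sum_mem fun h hh => ?_
    exact (le_iSup₂_of_le (f := fun g (_ : g ∈ {g | A g ≤ M}) => A g) h (hle h hh) le_rfl) (h1 h)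

theorem Good.inv {g : G} {x : R} (hx : x ∈ A g) (hu : IsUnit x) :
    ∃ y ∈ A g⁻¹, x * y = 1 ∧ y * x = 1 := by
  obtain ⟨⟨x, v, h1, h2⟩, rfl⟩ := hu
  simp only at hx ⊢
  obtain ⟨y, hy, z, hz, e⟩ := hA.split g⁻¹ v
  have hxy : x * y ∈ A 1 := by
    have := hA.mul _ _ x hx y hy
    rwa [mul_inv_cancel] at this
  have hxz : x * z ∈ Part A {1}ᶜ := by
    have : Part A {g⁻¹}ᶜ ≤ (Part A {1}ᶜ).comap (AddMonoidHom.mulLeft x) :=
      iSup₂_le fun h hh w hw => by
        have h3 := hA.mul _ _ x hx w hw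
        refine (le_iSup₂_of_le (f := fun g (_ : g ∈ ({1}ᶜ : Set G)) => A g) (g * h) ?_ le_rfl) h3
        intro h4
        exact hh (eq_inv_of_mul_eq_one_right h4)
    exact this hz
  have h3 : x * z = 1 - x * y := by
    rw [← h1, e, mul_add]; abel
  have h4 : 1 - x * y = 0 := hA.eq_zero (sub_mem hA.one hxy) (h3 ▸ hxz) (by simp)
  have h5 : x * y = 1 := (sub_eq_zero.1 h4).symm
  have h6 : y = v := by
    calc y = (v * x) * y := by rw [h2, one_mul]
      _ = v := by rw [mul_assoc, h5, mul_one]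
  exact ⟨y, hy, h5, h6 ▸ h2⟩

end Abstract

section Concrete

variable {G : Type u} [Group G] [DecidableEq G] (k : Type v) [Field k]

abbrev Om (G : Type u) := G × ℕ → Fin 3
abbrev E (G : Type u) (k : Type v) [Field k] := Module.End k (Om G → k)

/-- The elementary operator of the pair of words `i`, `j` on the coordinates `F`. -/
def e (F : Finset (G × ℕ)) (i j : Om G) : E G k where
  toFun f x := if ∀ t ∈ F, x t = i t then f (F.piecewise j x) else 0
  map_add' f g := by ext x; simp only [Pi.add_apply]; split_ifs <;> simp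
  map_smul' c f := by ext x; simp only [Pi.smul_apply, RingHom.id_apply]; split_ifs <;> simp

theorem e_apply (F : Finset (G × ℕ)) (i j : Om G) (f : Om G → k) (x : Om G) :
    e k F i j f x = if ∀ t ∈ F, x t = i t then f (F.piecewise j x) else 0 := rfl

theorem pw_pw {F K : Finset (G × ℕ)} (h : F ⊆ K) (a b x : Om G) :
    K.piecewise a (F.piecewise b x) = K.piecewise a x := by
  ext t
  by_cases ht : t ∈ K
  · simp [ht]
  · have h3 : t ∉ F := fun h' => ht (h h')
    simp [ht, h3]

theorem pw_comm {F K : Finset (G × ℕ)} (h : Disjoint F K) (a b x : Om G) :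
    K.piecewise a (F.piecewise b x) = F.piecewise b (K.piecewise a x) := by
  ext t
  by_cases ht : t ∈ K
  · simp [ht, Finset.disjoint_right.1 h ht]
  · simp [ht, Finset.piecewise]

theorem e_congr {F : Finset (G × ℕ)} {i i' j j' : Om G} (h : ∀ t ∈ F, i t = i' t)
    (h' : ∀ t ∈ F, j t = j' t) : e k F i j = e k F i' j' := by
  ext f x
  rw [e_apply, e_apply]
  have h1 : (∀ t ∈ F, x t = i t) ↔ ∀ t ∈ F, x t = i' t :=
    forall₂_congr fun t ht => by rw [h t ht]
  have h2 : F.piecewise j x = F.piecewise j' x := F.piecewise_congr h' fun _ _ => rfl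
  simp only [h1, h2]

theorem e_mul (F : Finset (G × ℕ)) (i j i' l : Om G) :
    e k F i j * e k F i' l = if ∀ t ∈ F, j t = i' t then e k F i l else 0 := by
  ext f x
  rw [Module.End.mul_apply, e_apply, e_apply]
  by_cases h : ∀ t ∈ F, x t = i t
  · rw [if_pos h]
    by_cases h' : ∀ t ∈ F, j t = i' t
    · rw [if_pos h', if_pos (fun t ht => by rw [Finset.piecewise_eq_of_mem _ _ _ ht]; exact h' t ht),
        e_apply, if_pos h, pw_pw (Finset.Subset.refl _)]
    · rw [if_neg h', if_neg (fun h'' => h' fun t ht => by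
        have := h'' t ht; rwa [Finset.piecewise_eq_of_mem _ _ _ ht] at this)]
      rfl
  · rw [if_neg h]
    split_ifs
    · rw [e_apply, if_neg h]
    · rfl

theorem e_ext {F K : Finset (G × ℕ)} (hFK : F ⊆ K) {i a : Om G} (h : ∀ t ∈ F, a t = i t)
    (j : Om G) : e k K a a * e k F i j = e k K a (F.piecewise j a) := by
  ext f x
  rw [Module.End.mul_apply, e_apply k K a a, e_apply k K a (F.piecewise j a)]
  by_cases h1 : ∀ t ∈ K, x t = a t
  · have h2 : K.piecewise a x = x := by
      ext t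
      by_cases ht : t ∈ K
      · simp [ht, h1 t ht]
      · simp [ht]
    rw [if_pos h1, if_pos h1, h2, e_apply, if_pos (fun t ht => (h1 t (hFK ht)).trans (h t ht))]
    congr 1
    ext t
    by_cases ht : t ∈ K
    · by_cases ht' : t ∈ F
      · simp [ht, ht']
      · simp [ht, ht', h1 t ht]
    · have h3 : t ∉ F := fun h' => ht (hFK h')
      simp [ht, h3]
  · rw [if_neg h1, if_neg h1]

theorem e_comm {F K : Finset (G × ℕ)} (h : Disjoint F K) (i j a b : Om G) :
    e k F i j * e k K a b = e k K a b * e k F i j := by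
  ext f x
  have h1 : (∀ t ∈ K, F.piecewise j x t = a t) ↔ ∀ t ∈ K, x t = a t :=
    forall₂_congr fun t ht => by rw [Finset.piecewise_eq_of_notMem _ _ _ (Finset.disjoint_right.1 h ht)]
  have h2 : (∀ t ∈ F, K.piecewise b x t = i t) ↔ ∀ t ∈ F, x t = i t :=
    forall₂_congr fun t ht => by rw [Finset.piecewise_eq_of_notMem _ _ _ (Finset.disjoint_left.1 h ht)]
  simp only [Module.End.mul_apply, e_apply]
  rw [pw_comm h]
  simp only [h1, h2]
  split_ifs <;> rfl

theorem e_insert {F : Finset (G × ℕ)} {t : G × ℕ} (ht : t ∉ F) (i j : Om G) :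
    e k F i j = ∑ c : Fin 3, e k (insert t F) (Function.update i t c) (Function.update j t c) := by
  ext f x
  rw [LinearMap.sum_apply, Finset.sum_apply, Finset.sum_eq_single (x t)]
  · rw [e_apply, e_apply]
    have h1 : (∀ s ∈ insert t F, x s = Function.update i t (x t) s) ↔ ∀ s ∈ F, x s = i s := by
      rw [Finset.forall_mem_insert]
      simp only [Function.update_self, true_and]
      refine forall₂_congr fun s hs => ?_
      have hne : s ≠ t := fun h => ht (h ▸ hs)
      rw [Function.update_of_ne hne]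
    have h2 : (insert t F).piecewise (Function.update j t (x t)) x = F.piecewise j x := by
      ext s
      by_cases hs : s = t
      · subst hs; simp [ht]
      · by_cases hs' : s ∈ F <;> simp [hs, hs']
    simp only [h1, h2]
  · intro c _ hc
    rw [e_apply, if_neg]
    intro h
    have := h t (Finset.mem_insert_self _ _)
    rw [Function.update_self] at this
    exact hc this.symm
  · simp

theorem e_ne (F : Finset (G × ℕ)) (i j : Om G) : e k F i j ≠ 0 := by
  intro h
  have := congrFun (LinearMap.congr_fun h fun _ => 1) i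
  simp [e_apply] at this

def tau (g : G) (t : G × ℕ) : G × ℕ := (g * t.1, t.2)

omit [DecidableEq G] in
theorem tau_tau (g h : G) (t : G × ℕ) : tau g (tau h t) = tau (g * h) t := by
  simp [tau, mul_assoc]

omit [DecidableEq G] in
theorem tau_inv (g : G) (t : G × ℕ) : tau g⁻¹ (tau g t) = t := by
  simp [tau]

omit [DecidableEq G] in
theorem tau_inj (g : G) : Function.Injective (tau g) :=
  Function.LeftInverse.injective (tau_inv g)

def u (g : G) : E G k := LinearMap.funLeft k k fun x : Om G => x ∘ tau g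

omit [DecidableEq G] in
theorem u_apply (g : G) (f : Om G → k) (x : Om G) : u k g f x = f (x ∘ tau g) := rfl

omit [DecidableEq G] in
theorem u_mul (g h : G) : u k g * u k h = u k (g * h) := by
  ext f x
  rw [Module.End.mul_apply, u_apply, u_apply, u_apply]
  congr 1
  ext t
  simp [tau_tau]

omit [DecidableEq G] in
theorem u_one : u k (1 : G) = 1 := by
  ext f x
  rw [u_apply]
  congr 1
  ext t
  simp [tau]

omit [DecidableEq G] in
theorem u_inv (g : G) : u k g * u k g⁻¹ = 1 := by rw [u_mul, mul_inv_cancel, u_one]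

omit [DecidableEq G] in
theorem u_inv' (g : G) : u k g⁻¹ * u k g = 1 := by rw [u_mul, inv_mul_cancel, u_one]

theorem u_e (g : G) (F : Finset (G × ℕ)) (i j : Om G) :
    u k g * e k F i j =
      e k (F.image (tau g)) (i ∘ tau g⁻¹) (j ∘ tau g⁻¹) * u k g := by
  ext f x
  rw [Module.End.mul_apply, Module.End.mul_apply, u_apply, e_apply, e_apply, u_apply]
  have h1 : (∀ t ∈ F.image (tau g), x t = (i ∘ tau g⁻¹) t) ↔ ∀ t ∈ F, (x ∘ tau g) t = i t := by
    rw [Finset.forall_mem_image]
    simp [tau_inv]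
  have h2 : (F.image (tau g)).piecewise (j ∘ tau g⁻¹) x ∘ tau g = F.piecewise j (x ∘ tau g) := by
    ext t
    by_cases ht : t ∈ F
    · have : tau g t ∈ F.image (tau g) := Finset.mem_image_of_mem _ ht
      simp [ht, this, tau_inv]
    · have : tau g t ∉ F.image (tau g) := fun h => ht ((tau_inj g).mem_finset_image.1 h)
      simp [ht, this]
  simp only [h1, h2]

/-- The parities of the numbers of letters `2` of the word `i` on `F`. -/
def par (F : Finset (G × ℕ)) (i : Om G) (h : G) : ZMod 2 :=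
  ∑ t ∈ F, if t.1 = h ∧ i t = 2 then 1 else 0

omit [Group G] in
theorem two (a : G → ZMod 2) : a + a = 0 := by
  ext x
  exact CharTwo.add_self_eq_zero _

omit [Group G] in
theorem par_congr {F : Finset (G × ℕ)} {i j : Om G} (h : ∀ t ∈ F, i t = j t) :
    par F i = par F j := by
  ext x
  unfold par
  exact Finset.sum_congr rfl fun t ht => by rw [h t ht]

omit [Group G] in
theorem par_empty (i : Om G) : par ∅ i = 0 := by
  ext x
  simp [par]

omit [Group G] in
theorem par_union {F K : Finset (G × ℕ)} (h : Disjoint F K) (i : Om G) :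
    par (F ∪ K) i = par F i + par K i := by
  ext x
  simp only [par, Pi.add_apply]
  exact Finset.sum_union h

omit [Group G] in
theorem par_supp {F : Finset (G × ℕ)} (i : Om G) {h : G} (hh : h ∉ F.image Prod.fst) :
    par F i h = 0 := by
  unfold par
  refine Finset.sum_eq_zero fun t ht => if_neg fun h' => hh ?_
  exact h'.1 ▸ Finset.mem_image_of_mem _ ht

theorem par_image (g : G) (F : Finset (G × ℕ)) (i : Om G) (h : G) :
    par (F.image (tau g)) (i ∘ tau g⁻¹) h = par F i (g⁻¹ * h) := by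
  unfold par
  rw [Finset.sum_image fun a _ b _ hab => tau_inj g hab]
  refine Finset.sum_congr rfl fun t _ => ?_
  have h1 : (tau g t).1 = h ↔ t.1 = g⁻¹ * h := by
    simp [tau, eq_inv_mul_iff_mul_eq]
  simp [h1, tau_inv]

omit [Group G] in
theorem par_sub {F K : Finset (G × ℕ)} (hFK : F ⊆ K) {a b : Om G}
    (h : ∀ t ∈ K, t ∉ F → a t = b t) : par K a + par K b = par F a + par F b := by
  have h1 : K = F ∪ (K \ F) := (Finset.union_sdiff_of_subset hFK).symm
  rw [h1, par_union Finset.disjoint_sdiff, par_union Finset.disjoint_sdiff,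
    par_congr (i := a) (j := b) (F := K \ F) fun t ht => by
      rw [Finset.mem_sdiff] at ht; exact h t ht.1 ht.2]
  calc par F a + par (K \ F) b + (par F b + par (K \ F) b)
      = par F a + par F b + (par (K \ F) b + par (K \ F) b) := by abel
    _ = par F a + par F b := by rw [two, add_zero]

def wd (v : G → ZMod 2) (n : ℕ) : Om G := fun t => if t.2 = n ∧ v t.1 = 1 then 2 else 0

omit [Group G] in
theorem par_wd (H : Finset G) (n : ℕ) (v : G → ZMod 2) (hv : ∀ h, h ∉ H → v h = 0) :
    par (H ×ˢ {n}) (wd v n) = v := by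
  ext h
  unfold par
  rw [Finset.sum_product]
  simp only [Finset.sum_singleton]
  by_cases hh : h ∈ H
  · rw [Finset.sum_eq_single h]
    · have : ∀ c : ZMod 2, (if (h = h ∧ (if (n = n ∧ c = 1) then (2 : Fin 3) else 0) = 2) then
          (1 : ZMod 2) else 0) = c := by
        intro c
        simp only [true_and]
        revert c
        decide
      exact this (v h)
    · intro b _ hb
      rw [if_neg fun h' => hb h'.1]
    · exact fun h' => absurd hh h'
  · rw [hv h hh]
    refine Finset.sum_eq_zero fun b hb => ?_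
    rw [if_neg]
    rintro ⟨h1, -⟩
    exact hh (h1 ▸ hb)

/-- The operators on the coordinates `F` of degree `d`. -/
def TS (F : Finset (G × ℕ)) (d : G → ZMod 2) : Submodule k (E G k) :=
  Submodule.span k {X | ∃ i j, par F i + par F j = d ∧ X = e k F i j}

theorem mem_TS {F : Finset (G × ℕ)} {d : G → ZMod 2} {i j : Om G} (h : par F i + par F j = d) :
    e k F i j ∈ TS k F d := Submodule.subset_span ⟨i, j, h, rfl⟩

theorem TS_insert {F : Finset (G × ℕ)} {t : G × ℕ} (ht : t ∉ F) (d : G → ZMod 2) :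
    TS k F d ≤ TS k (insert t F) d := by
  refine Submodule.span_le.2 ?_
  rintro _ ⟨i, j, h, rfl⟩
  rw [SetLike.mem_coe, e_insert k ht i j]
  refine sum_mem fun c _ => mem_TS k ?_
  rw [par_sub (Finset.subset_insert t F) (fun s hs hs' => ?_), par_congr (i := Function.update i t c)
    (j := i) (fun s hs => ?_), par_congr (i := Function.update j t c) (j := j) (fun s hs => ?_), h]
  · exact Function.update_of_ne (fun h : s = t => ht (h ▸ hs)) _ _
  · exact Function.update_of_ne (fun h : s = t => ht (h ▸ hs)) _ _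
  · rcases Finset.mem_insert.1 hs with rfl | h'
    · simp
    · exact absurd h' hs'

theorem TS_mono {F K : Finset (G × ℕ)} (h : F ⊆ K) (d : G → ZMod 2) : TS k F d ≤ TS k K d := by
  have key : ∀ D : Finset (G × ℕ), TS k F d ≤ TS k (F ∪ D) d := by
    intro D
    induction D using Finset.induction_on with
    | empty => simp
    | insert t D _ ih =>
      rw [Finset.union_insert]
      by_cases ht : t ∈ F ∪ D
      · rwa [Finset.insert_eq_of_mem ht]
      · exact ih.trans (TS_insert k ht d)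
  have := key K
  rwa [Finset.union_eq_right.2 h] at this

theorem TS_mul {F : Finset (G × ℕ)} {d d' : G → ZMod 2} {X Y : E G k} (hX : X ∈ TS k F d)
    (hY : Y ∈ TS k F d') : X * Y ∈ TS k F (d + d') := by
  have h : TS k F d * TS k F d' ≤ TS k F (d + d') := by
    rw [TS, TS, Submodule.span_mul_span, Submodule.span_le]
    rintro _ ⟨_, ⟨i, j, h, rfl⟩, _, ⟨i', l, h', rfl⟩, rfl⟩
    simp only [SetLike.mem_coe]
    rw [e_mul]
    split_ifs with hj
    · refine mem_TS k ?_
      rw [← h, ← h', par_congr hj]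
      calc par F i + par F l = par F i + (par F i' + par F i') + par F l := by rw [two, add_zero]
        _ = _ := by abel
    · exact zero_mem _
  exact h (Submodule.mul_mem_mul hX hY)

theorem diag (F : Finset (G × ℕ)) : (1 : E G k) ∈ Submodule.span k {X | ∃ i, X = e k F i i} := by
  induction F using Finset.induction_on with
  | empty =>
    refine Submodule.subset_span ⟨fun _ => 0, ?_⟩
    ext f x
    simp [e_apply]
  | insert t F ht ih =>
    refine (Submodule.span_le.2 ?_ : Submodule.span k {X | ∃ i, X = e k F i i} ≤ _) ih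
    rintro _ ⟨i, rfl⟩
    rw [SetLike.mem_coe, e_insert k ht i i]
    exact sum_mem fun c _ => Submodule.subset_span ⟨_, rfl⟩

theorem one_TS (F : Finset (G × ℕ)) : (1 : E G k) ∈ TS k F 0 := by
  refine (Submodule.span_mono ?_) (diag k F)
  rintro _ ⟨i, rfl⟩
  exact ⟨i, i, two _, rfl⟩

/-- shift of degrees -/
def sh (g : G) (d : G → ZMod 2) : G → ZMod 2 := fun h => d (g⁻¹ * h)

theorem TS_conj (g : G) {F : Finset (G × ℕ)} {d : G → ZMod 2} {X : E G k} (hX : X ∈ TS k F d) :
    u k g * X * u k g⁻¹ ∈ TS k (F.image (tau g)) (sh g d) := by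
  induction hX using Submodule.span_induction with
  | mem X h =>
    obtain ⟨i, j, h, rfl⟩ := h
    rw [u_e, mul_assoc, u_inv, mul_one]
    refine mem_TS k ?_
    ext x
    rw [Pi.add_apply, par_image, par_image, sh, ← h, Pi.add_apply]
  | zero => simp
  | add X Y _ _ hX hY => rw [mul_add, add_mul]; exact add_mem hX hY
  | smul c X _ hX => rw [mul_smul_comm, smul_mul_assoc]; exact Submodule.smul_mem _ _ hX

/-- The operators of degree `d`. -/
def TT (d : G → ZMod 2) : Submodule k (E G k) where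
  carrier := {X | ∃ F, X ∈ TS k F d}
  zero_mem' := ⟨∅, zero_mem _⟩
  add_mem' := by
    rintro X Y ⟨F, hX⟩ ⟨K, hY⟩
    exact ⟨F ∪ K, add_mem (TS_mono k Finset.subset_union_left d hX)
      (TS_mono k Finset.subset_union_right d hY)⟩
  smul_mem' := fun c X ⟨F, hX⟩ => ⟨F, Submodule.smul_mem _ _ hX⟩

theorem TT_mul {d d' : G → ZMod 2} {X Y : E G k} (hX : X ∈ TT k d) (hY : Y ∈ TT k d') :
    X * Y ∈ TT k (d + d') := by
  obtain ⟨F, hX⟩ := hX
  obtain ⟨K, hY⟩ := hY
  exact ⟨F ∪ K, TS_mul k (TS_mono k Finset.subset_union_left d hX)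
      (TS_mono k Finset.subset_union_right d' hY)⟩

theorem TT_conj (g : G) {d : G → ZMod 2} {X : E G k} (hX : X ∈ TT k d) :
    u k g * X * u k g⁻¹ ∈ TT k (sh g d) := by
  obtain ⟨F, hX⟩ := hX
  exact ⟨_, TS_conj k g hX⟩

theorem exists_fresh (F : Finset (G × ℕ)) : ∃ n : ℕ, ∀ t ∈ F, t.2 ≠ n :=
  ⟨F.sup Prod.snd + 1, fun t ht h => by
    have := Finset.le_sup (f := Prod.snd) ht
    omega⟩

theorem single {F : Finset (G × ℕ)} {d : G → ZMod 2} {X : E G k} (hX : X ∈ TS k F d) (i j : Om G) :
    ∃ c : k, e k F i i * X * e k F j j = c • e k F i j ∧ (c ≠ 0 → par F i + par F j = d) := by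
  induction hX using Submodule.span_induction with
  | mem X h =>
    obtain ⟨a, b, h, rfl⟩ := h
    rw [e_mul]
    split_ifs with h1
    · rw [e_mul]
      split_ifs with h2
      · exact ⟨1, (one_smul _ _).symm, fun _ => by rw [par_congr h1, ← par_congr h2, h]⟩
      · exact ⟨0, by simp, fun h => absurd rfl h⟩
    · exact ⟨0, by simp, fun h => absurd rfl h⟩
  | zero => exact ⟨0, by simp, fun h => absurd rfl h⟩
  | add X Y _ _ hX hY =>
    obtain ⟨c, h1, h2⟩ := hX
    obtain ⟨c', h1', h2'⟩ := hY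
    refine ⟨c + c', by rw [mul_add, add_mul, h1, h1', add_smul], fun h => ?_⟩
    by_cases hc : c = 0
    · exact h2' fun hc' => h (by rw [hc, hc', add_zero])
    · exact h2 hc
  | smul a X _ hX =>
    obtain ⟨c, h1, h2⟩ := hX
    exact ⟨a * c, by rw [mul_smul_comm, smul_mul_assoc, h1, smul_smul], fun h =>
      h2 (right_ne_zero_of_mul h)⟩

theorem exists_ne (F : Finset (G × ℕ)) {X : E G k} (hX : X ≠ 0) :
    ∃ i j, e k F i i * X * e k F j j ≠ 0 := by
  by_contra! hc
  have h1 : ∀ i, e k F i i * X = 0 := by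
    intro i
    have h : Submodule.span k {X | ∃ i, X = e k F i i} ≤
        LinearMap.ker (LinearMap.mulLeft k (e k F i i * X)) := by
      rw [Submodule.span_le]
      rintro _ ⟨j, rfl⟩
      exact hc i j
    have := h (diag k F)
    simpa using this
  have h : Submodule.span k {X | ∃ i, X = e k F i i} ≤ LinearMap.ker (LinearMap.mulRight k X) := by
    rw [Submodule.span_le]
    rintro _ ⟨j, rfl⟩
    exact h1 j
  have := h (diag k F)
  exact hX (by simpa using this)

theorem simpleT (P : AddSubgroup (E G k)) (hP : ∀ a ∈ TT k (0 : G → ZMod 2), ∀ Z ∈ P,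
    a * Z ∈ P ∧ Z * a ∈ P) {d : G → ZMod 2} {X : E G k} (hX : X ∈ TT k d) (h0 : X ≠ 0)
    (hXP : X ∈ P) : ∀ Y ∈ TT k d, Y ∈ P := by
  rintro Y ⟨F', hY⟩
  obtain ⟨F, hX⟩ := hX
  have hone : (1 : E G k) ∈ TT k (0 : G → ZMod 2) := ⟨∅, one_TS k ∅⟩
  have hsm : ∀ (c : k), ∀ Z ∈ P, c • Z ∈ P := by
    intro c Z hZ
    have := (hP _ (Submodule.smul_mem _ c hone) Z hZ).1
    rwa [smul_mul_assoc, one_mul] at this
  obtain ⟨i, j, hij⟩ := exists_ne k F h0
  obtain ⟨c, h1, h2⟩ := single k hX i j
  have hc : c ≠ 0 := by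
    rintro rfl
    rw [zero_smul] at h1
    exact hij h1
  have hd := h2 hc
  have hP1 : e k F i j ∈ P := by
    have h3 := (hP (e k F j j) ⟨F, mem_TS k (two _)⟩ _
      (hP (e k F i i) ⟨F, mem_TS k (two _)⟩ X hXP).1).2
    rw [h1] at h3
    have h4 := hsm c⁻¹ _ h3
    rwa [smul_smul, inv_mul_cancel₀ hc, one_smul] at h4
  obtain ⟨n, hn⟩ := exists_fresh (F ∪ F')
  set H : Finset G := (F ∪ F').image Prod.fst with hH
  set K : Finset (G × ℕ) := H ×ˢ {n} with hK
  have hdisj : Disjoint (F ∪ F') K := by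
    rw [Finset.disjoint_left]
    intro t ht ht'
    exact hn t ht (Finset.mem_singleton.1 (Finset.mem_product.1 ht').2)
  have hFL : F ⊆ (F ∪ F') ∪ K := Finset.subset_union_left.trans Finset.subset_union_left
  have hF'L : F' ⊆ (F ∪ F') ∪ K := Finset.subset_union_right.trans Finset.subset_union_left
  have hle : ∀ Z ∈ TS k ((F ∪ F') ∪ K) d, Z ∈ P := by
    intro Z hZ
    induction hZ using Submodule.span_induction with
    | mem Z h =>
      obtain ⟨s, t, h, rfl⟩ := h
      obtain ⟨v, hv⟩ : ∃ v : G → ZMod 2, v = par (F ∪ F') i + par ((F ∪ F') ∪ K) s := ⟨_, rfl⟩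
      have hv0 : ∀ h, h ∉ H → v h = 0 := by
        intro h hh
        rw [hv, Pi.add_apply, par_supp _ hh, par_supp, add_zero]
        intro h'
        rw [Finset.image_union] at h'
        rcases Finset.mem_union.1 h' with h'' | h''
        · exact hh h''
        · obtain ⟨t, ht, rfl⟩ := Finset.mem_image.1 h''
          exact hh (Finset.mem_product.1 ht).1
      obtain ⟨i₂, hi₂⟩ : ∃ i₂ : Om G, i₂ = (F ∪ F').piecewise i (wd v n) := ⟨_, rfl⟩
      have hp : par ((F ∪ F') ∪ K) i₂ = par ((F ∪ F') ∪ K) s := by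
        rw [par_union hdisj i₂, par_congr (i := i₂) (j := i) (F := F ∪ F') (fun t ht => by
          rw [hi₂, Finset.piecewise_eq_of_mem _ _ _ ht]), par_congr (i := i₂) (j := wd v n) (F := K)
          (fun t ht => by
            rw [hi₂, Finset.piecewise_eq_of_notMem _ _ _ (Finset.disjoint_right.1 hdisj ht)]),
          par_wd H n v hv0, hv, ← add_assoc, two, zero_add]
      obtain ⟨j₂, hj₂⟩ : ∃ j₂ : Om G, j₂ = F.piecewise j i₂ := ⟨_, rfl⟩
      have hij : e k ((F ∪ F') ∪ K) i₂ i₂ * e k F i j = e k ((F ∪ F') ∪ K) i₂ j₂ := by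
        rw [hj₂]
        refine e_ext k hFL (fun t ht => ?_) j
        rw [hi₂, Finset.piecewise_eq_of_mem _ _ _ (Finset.mem_union_left _ ht)]
      have hpj : par ((F ∪ F') ∪ K) i₂ + par ((F ∪ F') ∪ K) j₂ = d := by
        rw [par_sub hFL (fun t _ ht' => by rw [hj₂, Finset.piecewise_eq_of_notMem _ _ _ ht']), ← hd,
          par_congr (i := i₂) (j := i) (F := F) (fun t ht => by
            rw [hi₂, Finset.piecewise_eq_of_mem _ _ _ (Finset.mem_union_left _ ht)]),
          par_congr (i := j₂) (j := j) (F := F) (fun t ht => by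
            rw [hj₂, Finset.piecewise_eq_of_mem _ _ _ ht])]
      have e1 : e k ((F ∪ F') ∪ K) s t = e k ((F ∪ F') ∪ K) s i₂ *
          (e k ((F ∪ F') ∪ K) i₂ i₂ * e k F i j) * e k ((F ∪ F') ∪ K) j₂ t := by
        rw [hij, e_mul, if_pos (fun _ _ => rfl), e_mul, if_pos (fun _ _ => rfl)]
      have h5 : par ((F ∪ F') ∪ K) s + par ((F ∪ F') ∪ K) i₂ = 0 := by rw [hp, two]
      have h6 : par ((F ∪ F') ∪ K) j₂ + par ((F ∪ F') ∪ K) t = 0 := by
        have h7 : par ((F ∪ F') ∪ K) j₂ + par ((F ∪ F') ∪ K) t =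
            (par ((F ∪ F') ∪ K) i₂ + par ((F ∪ F') ∪ K) j₂) +
            (par ((F ∪ F') ∪ K) s + par ((F ∪ F') ∪ K) t) := by
          rw [hp]
          calc par ((F ∪ F') ∪ K) j₂ + par ((F ∪ F') ∪ K) t
              = 0 + (par ((F ∪ F') ∪ K) j₂ + par ((F ∪ F') ∪ K) t) := (zero_add _).symm
            _ = (par ((F ∪ F') ∪ K) s + par ((F ∪ F') ∪ K) s) +
                (par ((F ∪ F') ∪ K) j₂ + par ((F ∪ F') ∪ K) t) := by rw [two]
            _ = _ := by abel
        rw [h7, hpj, h, two]
      rw [e1]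
      exact (hP _ ⟨_, mem_TS k h6⟩ _ (hP _ ⟨_, mem_TS k h5⟩ _
        (hP _ ⟨_, mem_TS k (two _)⟩ _ hP1).1).1).2
    | zero => exact zero_mem _
    | add X Y _ _ hX hY => exact add_mem hX hY
    | smul c X _ hX => exact hsm c X hX
  exact hle Y (TS_mono k hF'L d hY)

def sb (K : Finset (G × ℕ)) (a : Om G) : E G k :=
  LinearMap.funLeft k k fun x : Om G => K.piecewise a x

theorem sb_apply (K : Finset (G × ℕ)) (a : Om G) (f : Om G → k) (x : Om G) :
    sb k K a f x = f (K.piecewise a x) := rfl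

theorem sb_comm {F K : Finset (G × ℕ)} (h : Disjoint F K) (a : Om G) {d : G → ZMod 2} {X : E G k}
    (hX : X ∈ TS k F d) : X * sb k K a = sb k K a * X := by
  induction hX using Submodule.span_induction with
  | mem X hX =>
    obtain ⟨i, j, -, rfl⟩ := hX
    ext f x
    rw [Module.End.mul_apply, Module.End.mul_apply, e_apply, sb_apply, sb_apply, e_apply]
    have h2 : (∀ t ∈ F, K.piecewise a x t = i t) ↔ ∀ t ∈ F, x t = i t :=
      forall₂_congr fun t ht => by
        rw [Finset.piecewise_eq_of_notMem _ _ _ (Finset.disjoint_left.1 h ht)]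
    rw [pw_comm h]
    simp only [h2]
  | zero => simp
  | add X Y _ _ hX hY => rw [mul_add, add_mul, hX, hY]
  | smul c X _ hX => rw [mul_smul_comm, smul_mul_assoc, hX]

theorem sb_e (K : Finset (G × ℕ)) (a : Om G) : sb k K a * e k K a a = sb k K a := by
  ext f x
  rw [Module.End.mul_apply, sb_apply, sb_apply, e_apply, pw_pw (Finset.Subset.refl _), if_pos]
  intro t ht
  exact Finset.piecewise_eq_of_mem _ _ _ ht

theorem mul_ne {F K : Finset (G × ℕ)} (h : Disjoint F K) (a : Om G) {d : G → ZMod 2} {X : E G k}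
    (hX : X ∈ TS k F d) (h0 : X ≠ 0) : X * e k K a a ≠ 0 := by
  intro hc
  apply h0
  have h1 : X * sb k K a = 0 := by
    calc X * sb k K a = X * sb k K a * e k K a a := by rw [mul_assoc, sb_e]
      _ = sb k K a * (X * e k K a a) := by rw [sb_comm k h a hX, mul_assoc]
      _ = 0 := by rw [hc, mul_zero]
  ext f y
  have h2 : (X * sb k K a) (sb k K y f) y = X f y := by
    have h3 : (X * sb k K a) (sb k K y f) = (X * sb k K y) f := by
      rw [Module.End.mul_apply, Module.End.mul_apply]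
      congr 1
      ext x
      rw [sb_apply, sb_apply, sb_apply, pw_pw (Finset.Subset.refl _)]
    have h4 : K.piecewise y y = y := by
      ext t
      by_cases ht : t ∈ K <;> simp [ht]
    rw [h3, sb_comm k h y hX, Module.End.mul_apply, sb_apply, h4]
  rw [← h2, h1]
  rfl

/-- `δ_1 + δ_g` -/
def dd (g : G) : G → ZMod 2 := fun h => (if h = 1 then 1 else 0) + (if h = g then 1 else 0)

theorem dd_one : dd (1 : G) = 0 := by
  ext h
  exact CharTwo.add_self_eq_zero _

theorem dd_mul (g h : G) : dd g + sh g (dd h) = dd (g * h) := by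
  ext x
  have h1 : g⁻¹ * x = 1 ↔ x = g := by rw [inv_mul_eq_one]; exact eq_comm
  have h2 : g⁻¹ * x = h ↔ x = g * h := inv_mul_eq_iff_eq_mul
  have h3 : ∀ a b c : ZMod 2, a + b + (b + c) = a + c := by decide
  simp only [Pi.add_apply, dd, sh, h1, h2]
  exact h3 _ _ _

theorem sh_dd_inv (g : G) : sh g (dd g⁻¹) = dd g := by
  ext x
  have h1 : g⁻¹ * x = 1 ↔ x = g := by rw [inv_mul_eq_one]; exact eq_comm
  have h2 : g⁻¹ * x = g⁻¹ ↔ x = 1 := by simp
  simp only [dd, sh, h1, h2]
  exact add_comm _ _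

/-- The component of degree `g`, in the ring of all operators. -/
def BB (g : G) : Submodule k (E G k) := (TT k (dd g)).comap (LinearMap.mulRight k (u k g⁻¹))

theorem mem_BB {g : G} {X : E G k} : X ∈ BB k g ↔ X * u k g⁻¹ ∈ TT k (dd g) := Iff.rfl

theorem mem_BB_one {X : E G k} : X ∈ BB k (1 : G) ↔ X ∈ TT k (0 : G → ZMod 2) := by
  rw [mem_BB, inv_one, u_one, mul_one, dd_one]

theorem BB_mul {g h : G} {X Y : E G k} (hX : X ∈ BB k g) (hY : Y ∈ BB k h) :
    X * Y ∈ BB k (g * h) := by
  have h1 := TT_mul k hX (TT_conj k g hY)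
  rw [dd_mul] at h1
  rw [mem_BB]
  have h2 : X * Y * u k (g * h)⁻¹ = X * u k g⁻¹ * (u k g * (Y * u k h⁻¹) * u k g⁻¹) := by
    rw [mul_inv_rev, ← u_mul]
    calc X * Y * (u k h⁻¹ * u k g⁻¹) = X * 1 * (Y * u k h⁻¹) * u k g⁻¹ := by
          simp only [mul_assoc, mul_one, one_mul]
      _ = _ := by rw [← u_inv' k g]; simp only [mul_assoc]
  rw [h2]
  exact h1

theorem one_BB : (1 : E G k) ∈ BB k (1 : G) := (mem_BB_one k).2 ⟨∅, one_TS k ∅⟩

variable (G)

/-- The ring. -/
def RR : Subalgebra k (E G k) where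
  carrier := ((⨆ g : G, BB k g : Submodule k (E G k)) : Set (E G k))
  mul_mem' := by
    intro a b ha hb
    simp only [SetLike.mem_coe] at ha hb ⊢
    induction ha using Submodule.iSup_induction' with
    | mem g a ha =>
      induction hb using Submodule.iSup_induction' with
      | mem h b hb => exact Submodule.mem_iSup_of_mem (g * h) (BB_mul k ha hb)
      | zero => rw [mul_zero]; exact zero_mem _
      | add b b' _ _ h1 h2 => rw [mul_add]; exact add_mem h1 h2
    | zero => rw [zero_mul]; exact zero_mem _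
    | add b b' _ _ h1 h2 => rw [add_mul]; exact add_mem h1 h2
  add_mem' := fun ha hb => add_mem ha hb
  algebraMap_mem' := fun c => by
    rw [Algebra.algebraMap_eq_smul_one]
    exact Submodule.smul_mem _ _ (Submodule.mem_iSup_of_mem 1 (one_BB k))

/-- The grading. -/
def AA (g : G) : AddSubgroup (RR G k) where
  carrier := {x | (x : E G k) ∈ BB k g}
  zero_mem' := zero_mem (BB k g)
  add_mem' := fun {x y} hx hy => (BB k g).add_mem (x := (x : E G k)) (y := (y : E G k)) hx hy
  neg_mem' := fun {x} hx => (BB k g).neg_mem (x := (x : E G k)) hx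

theorem mem_AA {g : G} {x : RR G k} : x ∈ AA G k g ↔ (x : E G k) ∈ BB k g := Iff.rfl

variable {G}

theorem BB_le {g : G} {X : E G k} (h : X ∈ BB k g) : X ∈ RR G k := Submodule.mem_iSup_of_mem g h

theorem mk_mem {g : G} {X : E G k} (h : X ∈ BB k g) : (⟨X, BB_le k h⟩ : RR G k) ∈ AA G k g := h

variable (G)

theorem AA_top : ⨆ g, AA G k g = ⊤ := by
  rw [eq_top_iff]
  have key : ∀ x ∈ (⨆ g : G, BB k g : Submodule k (E G k)),
      ∃ h : x ∈ RR G k, (⟨x, h⟩ : RR G k) ∈ ⨆ g, AA G k g := by
    intro x hx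
    induction hx using Submodule.iSup_induction' with
    | mem g x hx1 =>
      refine ⟨BB_le k hx1, ?_⟩
      exact (le_iSup (AA G k) g) (mk_mem k hx1)
    | zero => exact ⟨zero_mem _, zero_mem _⟩
    | add x y hx hy h1 h2 =>
      obtain ⟨h1, h1'⟩ := h1
      obtain ⟨h2, h2'⟩ := h2
      exact ⟨add_mem h1 h2, add_mem h1' h2'⟩
  rintro ⟨x, hx⟩ -
  exact (key x hx).2

theorem AA_simple (g : G) (x : RR G k) (hx : x ∈ AA G k g) (h0 : x ≠ 0)
    (M : AddSubgroup (RR G k)) (hM : IsSub (AA G k) M) (hxM : x ∈ M) : AA G k g ≤ M := by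
  intro y hy
  let P : AddSubgroup (E G k) :=
    { carrier := {Z | ∃ z ∈ M, (z : E G k) = Z * u k g}
      zero_mem' := ⟨0, zero_mem _, by simp⟩
      add_mem' := by
        rintro Z W ⟨z, hz, h1⟩ ⟨w, hw, h2⟩
        exact ⟨z + w, add_mem hz hw, by rw [add_mul, ← h1, ← h2]; rfl⟩
      neg_mem' := by
        rintro Z ⟨z, hz, h1⟩
        refine ⟨-z, neg_mem hz, ?_⟩
        change -(z : E G k) = -Z * u k g
        rw [h1]
        exact (neg_mul Z (u k g)).symm }
  have hP : ∀ a ∈ TT k (0 : G → ZMod 2), ∀ Z ∈ P, a * Z ∈ P ∧ Z * a ∈ P := by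
    rintro a ha Z ⟨z, hz, h1⟩
    constructor
    · have ha' : a ∈ BB k (1 : G) := (mem_BB_one k).2 ha
      refine ⟨⟨a, BB_le k ha'⟩ * z, (hM _ (mk_mem k ha') z hz).1, ?_⟩
      rw [mul_assoc, ← h1]
      rfl
    · have ha' : u k g⁻¹ * a * u k g ∈ BB k (1 : G) := by
        have := TT_conj k g⁻¹ ha
        rw [inv_inv] at this
        exact (mem_BB_one k).2 this
      refine ⟨z * ⟨_, BB_le k ha'⟩, (hM _ (mk_mem k ha') z hz).2, ?_⟩
      change (z : E G k) * (u k g⁻¹ * a * u k g) = _
      rw [h1]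
      calc Z * u k g * (u k g⁻¹ * a * u k g) = Z * (u k g * u k g⁻¹) * a * u k g := by
            simp only [mul_assoc]
        _ = Z * a * u k g := by rw [u_inv, mul_one]
  have hcan : ∀ z : RR G k, ((z : E G k) * u k g⁻¹) * u k g = z := fun z => by
    rw [mul_assoc, u_inv', mul_one]
  have h1 : (x : E G k) * u k g⁻¹ ≠ 0 := by
    intro h
    apply h0
    have := hcan x
    rw [h, zero_mul] at this
    exact Subtype.ext this.symm
  have hx' : (x : E G k) * u k g⁻¹ ∈ TT k (dd g) := hx
  have hy' : (y : E G k) * u k g⁻¹ ∈ TT k (dd g) := hy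
  obtain ⟨z, hz, h2⟩ := simpleT k P hP hx' h1 ⟨x, hxM, (hcan x).symm⟩ _ hy'
  rw [hcan y] at h2
  exact Subtype.ext h2 ▸ hz

theorem AA_sep (g : G) (x : RR G k) (hx : x ∈ AA G k g) (h0 : x ≠ 0) (s : Finset G) (hg : g ∉ s)
    (y : G → RR G k) (hy : ∀ h, y h ∈ AA G k h) :
    ∃ p ∈ AA G k 1, ∃ q ∈ AA G k 1, p * x * q ≠ 0 ∧ ∀ h ∈ s, p * y h * q = 0 := by
  have hcan : ∀ (g : G) (z : RR G k), ((z : E G k) * u k g⁻¹) * u k g = z := fun g z => by
    rw [mul_assoc, u_inv', mul_one]
  obtain ⟨F₀, hF₀⟩ : ∃ F, (x : E G k) * u k g⁻¹ ∈ TS k F (dd g) := hx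
  have hy' : ∀ h, ∃ F, (y h : E G k) * u k h⁻¹ ∈ TS k F (dd h) := hy
  choose D hD using hy'
  obtain ⟨F, hF⟩ : ∃ F, F = F₀ ∪ s.biUnion D := ⟨_, rfl⟩
  have hX : (x : E G k) * u k g⁻¹ ∈ TS k F (dd g) := TS_mono k (hF ▸ Finset.subset_union_left) _ hF₀
  have hY : ∀ h ∈ s, (y h : E G k) * u k h⁻¹ ∈ TS k F (dd h) := fun h hh =>
    TS_mono k (hF ▸ (Finset.subset_biUnion_of_mem D hh).trans Finset.subset_union_right) _ (hD h)
  obtain ⟨n, hn⟩ := exists_fresh F
  obtain ⟨K, hK⟩ : ∃ K : Finset (G × ℕ), K = insert (1, n) (s.image fun h => (h * g⁻¹, n)) :=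
    ⟨_, rfl⟩
  have hFK : Disjoint F K := by
    rw [Finset.disjoint_left]
    intro t ht ht'
    refine hn t ht ?_
    rw [hK] at ht'
    rcases Finset.mem_insert.1 ht' with rfl | h
    · rfl
    · obtain ⟨h, -, rfl⟩ := Finset.mem_image.1 h
      rfl
  obtain ⟨a, ha⟩ : ∃ a : Om G, a = fun t => if t.1 = 1 then 0 else 1 := ⟨_, rfl⟩
  have hp : e k K a a ∈ BB k (1 : G) := (mem_BB_one k).2 ⟨K, mem_TS k (two _)⟩
  have hq : e k {(g⁻¹, n)} (fun _ => 0) (fun _ => 0) ∈ BB k (1 : G) :=
    (mem_BB_one k).2 ⟨_, mem_TS k (two _)⟩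
  have hcomm : ∀ {d : G → ZMod 2} {Z : E G k}, Z ∈ TS k F d → e k K a a * Z = Z * e k K a a := by
    intro d Z hZ
    induction hZ using Submodule.span_induction with
    | mem X h =>
      obtain ⟨i, j, -, rfl⟩ := h
      exact (e_comm k hFK i j a a).symm
    | zero => simp
    | add X Y _ _ hX hY => rw [mul_add, add_mul, hX, hY]
    | smul c X _ hX => rw [mul_smul_comm, smul_mul_assoc, hX]
  have hshift : ∀ h : G, u k h * e k {(g⁻¹, n)} (fun _ => 0) (fun _ => 0) =
      e k {(h * g⁻¹, n)} (fun _ => 0) (fun _ => 0) * u k h := by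
    intro h
    rw [u_e, Finset.image_singleton]
    rfl
  have hgen : ∀ (h : G) (z : RR G k), (z : E G k) * u k h⁻¹ ∈ TS k F (dd h) →
      e k K a a * (z : E G k) * e k {(g⁻¹, n)} (fun _ => 0) (fun _ => 0) =
      ((z : E G k) * u k h⁻¹) * (e k K a a * e k {(h * g⁻¹, n)} (fun _ => 0) (fun _ => 0)) *
        u k h := by
    intro h z hz
    calc e k K a a * (z : E G k) * e k {(g⁻¹, n)} (fun _ => 0) (fun _ => 0)
        = e k K a a * ((z : E G k) * u k h⁻¹ * u k h) *
            e k {(g⁻¹, n)} (fun _ => 0) (fun _ => 0) := by rw [hcan]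
      _ = (e k K a a * ((z : E G k) * u k h⁻¹)) *
            (u k h * e k {(g⁻¹, n)} (fun _ => 0) (fun _ => 0)) := by simp only [mul_assoc]
      _ = _ := by rw [hcomm hz, hshift]; simp only [mul_assoc]
  refine ⟨⟨_, BB_le k hp⟩, mk_mem k hp, ⟨_, BB_le k hq⟩, mk_mem k hq, fun h => ?_, fun h hh => ?_⟩
  · have h1 : e k K a a * (x : E G k) * e k {(g⁻¹, n)} (fun _ => 0) (fun _ => 0) = 0 :=
      congrArg Subtype.val h
    have h2 : (x : E G k) * u k g⁻¹ * e k K a a ≠ 0 := by
      refine mul_ne k hFK a hX fun h3 => h0 ?_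
      have := hcan g x
      rw [h3, zero_mul] at this
      exact Subtype.ext this.symm
    apply h2
    have h3 : e k K a a * e k {((1 : G), n)} (fun _ => 0) (fun _ => 0) = e k K a a := by
      rw [e_ext k (by rw [Finset.singleton_subset_iff, hK]; exact Finset.mem_insert_self _ _)
        (fun t ht => by rw [Finset.mem_singleton.1 ht, ha]; simp)]
      refine e_congr k (fun _ _ => rfl) fun t ht => ?_
      by_cases ht' : t = (1, n)
      · subst ht'; simp [ha]
      · simp [ht']
    rw [hgen g x hX, mul_inv_cancel, h3] at h1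
    calc (x : E G k) * u k g⁻¹ * e k K a a
        = ((x : E G k) * u k g⁻¹ * e k K a a * u k g) * u k g⁻¹ := by
          rw [mul_assoc _ (u k g), u_inv, mul_one]
      _ = 0 := by rw [h1, zero_mul]
  · apply Subtype.ext
    change e k K a a * (y h : E G k) * e k {(g⁻¹, n)} (fun _ => 0) (fun _ => 0) = 0
    have hne : h * g⁻¹ ≠ 1 := fun h' => hg (mul_inv_eq_one.1 h' ▸ hh)
    have h3 : e k K a a * e k {(h * g⁻¹, n)} (fun _ => 0) (fun _ => 0) = 0 := by
      ext f x
      rw [Module.End.mul_apply, e_apply]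
      split_ifs with h4
      · rw [e_apply, if_neg]
        · rfl
        · intro h5
          have hmem : (h * g⁻¹, n) ∈ K := by
            rw [hK]
            exact Finset.mem_insert_of_mem (Finset.mem_image_of_mem _ hh)
          have h6 := h5 _ (Finset.mem_singleton_self _)
          rw [Finset.piecewise_eq_of_mem _ _ _ hmem, ha] at h6
          simp [hne] at h6
      · rfl
    rw [hgen h (y h) (hY h hh), h3, mul_zero, zero_mul]

theorem AA_prod (g : G) : ∃ x ∈ AA G k g⁻¹, ∃ y ∈ AA G k g, x * y ≠ 0 := by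
  obtain ⟨F, hF⟩ : ∃ F : Finset (G × ℕ), F = ({1, g} : Finset G) ×ˢ {0} := ⟨_, rfl⟩
  have h1 : par F (wd (dd g) 0) = dd g := by
    rw [hF]
    refine par_wd _ _ _ fun h hh => ?_
    simp only [Finset.mem_insert, Finset.mem_singleton, not_or] at hh
    simp [dd, hh.1, hh.2]
  have h2 : par F (wd (fun _ => (0 : ZMod 2)) 0 : Om G) = fun _ => 0 := by
    rw [hF]
    exact par_wd _ _ _ fun h hh => rfl
  obtain ⟨i, hi⟩ : ∃ i : Om G, par F i = fun _ => 0 := ⟨_, h2⟩
  obtain ⟨j, hj⟩ : ∃ j : Om G, par F j = dd g := ⟨_, h1⟩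
  have hij : par F i + par F j = dd g := by
    rw [hi, hj]
    exact zero_add _
  have hji : par F j + par F i = dd g := by rw [add_comm, hij]
  have hy : e k F i j * u k g ∈ BB k g := by
    rw [mem_BB, mul_assoc, u_inv, mul_one]
    exact ⟨F, mem_TS k hij⟩
  have hx : u k g⁻¹ * e k F j i ∈ BB k g⁻¹ := by
    rw [mem_BB]
    have h3 := TT_conj k g⁻¹ (X := e k F j i) (d := dd g) ⟨F, mem_TS k hji⟩
    have h4 : sh g⁻¹ (dd g) = dd g⁻¹ := by
      have := sh_dd_inv g⁻¹
      rwa [inv_inv] at this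
    rwa [h4] at h3
  refine ⟨⟨_, BB_le k hx⟩, mk_mem k hx, ⟨_, BB_le k hy⟩, mk_mem k hy, fun h => ?_⟩
  have h5 : u k g⁻¹ * e k F j i * (e k F i j * u k g) = 0 := congrArg Subtype.val h
  apply e_ne k F j j
  calc e k F j j = e k F j i * e k F i j := by rw [e_mul, if_pos fun _ _ => rfl]
    _ = u k g * (u k g⁻¹ * e k F j i * (e k F i j * u k g)) * u k g⁻¹ := by
        have h6 : u k g * (u k g⁻¹ * e k F j i * (e k F i j * u k g)) * u k g⁻¹ =
            (u k g * u k g⁻¹) * (e k F j i * e k F i j) * (u k g * u k g⁻¹) := by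
          simp only [mul_assoc]
        rw [h6, u_inv, one_mul, mul_one]
    _ = 0 := by rw [h5, mul_zero, zero_mul]

theorem good : Good (AA G k) where
  one := one_BB k
  top := AA_top G k
  mul := fun _ _ _ hx _ hy => BB_mul k hx hy
  simple := AA_simple G k
  sep := AA_sep G k
  prod := AA_prod G k

variable {G}

/-- The indicator function of a word on `F`. -/
def ind (F : Finset (G × ℕ)) (j : F → Fin 3) : Om G → k :=
  fun x => if ∀ t : F, x t = j t then 1 else 0

def xt (F : Finset (G × ℕ)) (i : F → Fin 3) : Om G := fun t => if h : t ∈ F then i ⟨t, h⟩ else 0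

theorem xt_apply {F : Finset (G × ℕ)} (i : F → Fin 3) (t : F) : xt F i t = i t := by
  simp [xt]

def rs (F : Finset (G × ℕ)) (x : Om G) : F → Fin 3 := fun t => x t

theorem ind_eq {F : Finset (G × ℕ)} {d : G → ZMod 2} {X : E G k} (hX : X ∈ TS k F d)
    (j : F → Fin 3) (x : Om G) : X (ind k F j) x = X (ind k F j) (xt F (rs F x)) := by
  induction hX using Submodule.span_induction with
  | mem X h =>
    obtain ⟨a, b, -, rfl⟩ := h
    rw [e_apply, e_apply]
    have h1 : (∀ t ∈ F, xt F (rs F x) t = a t) ↔ ∀ t ∈ F, x t = a t :=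
      forall₂_congr fun t ht => by simp [xt, rs, ht]
    have h2 : ∀ y, ind k F j (F.piecewise b y) = if ∀ t : F, b t = j t then 1 else 0 := by
      intro y
      have h3 : (∀ t : F, F.piecewise b y t = j t) ↔ ∀ t : F, b t = j t :=
        forall_congr' fun t => by rw [Finset.piecewise_eq_of_mem _ _ _ t.2]
      unfold ind
      simp only [h3]
    simp only [h1, h2]
  | zero => rfl
  | add X Y _ _ hX hY => rw [LinearMap.add_apply, Pi.add_apply, Pi.add_apply, hX, hY]
  | smul c X _ hX => rw [LinearMap.smul_apply, Pi.smul_apply, Pi.smul_apply, hX]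

theorem ind_zero {F : Finset (G × ℕ)} {d : G → ZMod 2} {X : E G k} (hX : X ∈ TS k F d)
    {i j : F → Fin 3} (h : par F (xt F i) + par F (xt F j) ≠ d) : X (ind k F j) (xt F i) = 0 := by
  induction hX using Submodule.span_induction with
  | mem X h' =>
    obtain ⟨a, b, hab, rfl⟩ := h'
    rw [e_apply]
    split_ifs with h1
    · rw [ind, if_neg]
      intro h2
      apply h
      rw [par_congr h1, ← hab]
      congr 1
      refine par_congr fun t ht => ?_
      have := h2 ⟨t, ht⟩
      simp only [Finset.piecewise_eq_of_mem _ _ _ ht] at this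
      rw [this]
      simp [xt, ht]
    · rfl
  | zero => rfl
  | add X Y _ _ hX hY => rw [LinearMap.add_apply, Pi.add_apply, hX, hY, add_zero]
  | smul c X _ hX => rw [LinearMap.smul_apply, Pi.smul_apply, hX, smul_zero]

theorem ind_sum {F : Finset (G × ℕ)} {d : G → ZMod 2} {X : E G k} (hX : X ∈ TS k F d)
    (j : F → Fin 3) : X (ind k F j) = ∑ l, X (ind k F j) (xt F l) • ind k F l := by
  ext x
  rw [Finset.sum_apply, Finset.sum_eq_single (rs F x)]
  · rw [Pi.smul_apply, ← ind_eq k hX j x]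
    simp [ind, rs]
  · intro l _ hl
    rw [Pi.smul_apply, ind, if_neg, smul_zero]
    intro h
    exact hl (funext fun t => (h t).symm)
  · simp

theorem card_le {I : Type u} [Fintype I] [DecidableEq I] (A B : Matrix I I k) (p : I → Prop)
    [DecidablePred p] (hAB : A * B = 1) (hA : ∀ i l, p i → p l → A i l = 0) :
    Fintype.card {i // p i} ≤ Fintype.card {i // ¬ p i} := by
  let A' : Matrix {i // p i} {i // ¬ p i} k := fun i j => A i j
  let B' : Matrix {i // ¬ p i} {i // p i} k := fun i j => B i j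
  have h1 : A' * B' = 1 := by
    ext i j
    have h2 := congrFun (congrFun hAB i) j
    rw [Matrix.mul_apply, ← Fintype.sum_subtype_add_sum_subtype p] at h2
    rw [Matrix.mul_apply]
    have h3 : ∑ l : {x // p x}, A i l * B l j = 0 :=
      Finset.sum_eq_zero fun l _ => by rw [hA _ _ i.2 l.2, zero_mul]
    rw [h3, zero_add] at h2
    refine h2.trans ?_
    rw [Matrix.one_apply, Matrix.one_apply]
    simp only [Subtype.ext_iff]
  have h2 := Matrix.rank_mul_le_left A' B'
  rw [h1, Matrix.rank_one] at h2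
  exact h2.trans (Matrix.rank_le_card_width A')

theorem no_unit {g : G} (hg : g ≠ 1) (x : RR G k) (hx : x ∈ AA G k g) : ¬ IsUnit x := by
  intro hu
  obtain ⟨y, hy, h1, h2⟩ := (good G k).inv hx hu
  obtain ⟨F₁, hX⟩ : ∃ F, (x : E G k) * u k g⁻¹ ∈ TS k F (dd g) := hx
  have hy' : (y : E G k) * u k g⁻¹⁻¹ ∈ TT k (dd g⁻¹) := hy
  have hY := TT_conj k g hy'
  rw [inv_inv, sh_dd_inv] at hY
  have hY' : u k g * (y : E G k) ∈ TT k (dd g) := by
    have : u k g * ((y : E G k) * u k g) * u k g⁻¹ = u k g * (y : E G k) := by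
      calc u k g * ((y : E G k) * u k g) * u k g⁻¹ = u k g * (y : E G k) * (u k g * u k g⁻¹) := by
            simp only [mul_assoc]
        _ = _ := by rw [u_inv, mul_one]
    rwa [this] at hY
  obtain ⟨F₂, hY'⟩ := hY'
  have e1 : (x : E G k) * y = 1 := congrArg Subtype.val h1
  have e2 : (y : E G k) * x = 1 := congrArg Subtype.val h2
  obtain ⟨F, hF⟩ : ∃ F, F = F₁ ∪ F₂ := ⟨_, rfl⟩
  obtain ⟨X, hX0⟩ : ∃ X, X = (x : E G k) * u k g⁻¹ := ⟨_, rfl⟩
  obtain ⟨Y, hY0⟩ : ∃ Y, Y = u k g * (y : E G k) := ⟨_, rfl⟩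
  have hXF : X ∈ TS k F (dd g) := hX0 ▸ TS_mono k (hF ▸ Finset.subset_union_left) _ hX
  have hYF : Y ∈ TS k F (dd g) := hY0 ▸ TS_mono k (hF ▸ Finset.subset_union_right) _ hY'
  have hXY : X * Y = 1 := by
    rw [hX0, hY0]
    calc (x : E G k) * u k g⁻¹ * (u k g * (y : E G k)) =
          (x : E G k) * (u k g⁻¹ * u k g) * y := by simp only [mul_assoc]
      _ = 1 := by rw [u_inv', mul_one, e1]
  have hYX : Y * X = 1 := by
    rw [hX0, hY0]
    calc u k g * (y : E G k) * ((x : E G k) * u k g⁻¹) =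
          u k g * ((y : E G k) * x) * u k g⁻¹ := by simp only [mul_assoc]
      _ = 1 := by rw [e2, mul_one, u_inv]
  let m (Z : E G k) : Matrix (F → Fin 3) (F → Fin 3) k := fun i j => Z (ind k F j) (xt F i)
  have hm : ∀ Z : E G k, ∀ W ∈ TS k F (dd g), m (Z * W) = m Z * m W := by
    intro Z W hW
    ext i j
    rw [Matrix.mul_apply]
    change Z (W (ind k F j)) (xt F i) = _
    rw [ind_sum k hW j, map_sum, Finset.sum_apply]
    refine Finset.sum_congr rfl fun l _ => ?_
    rw [map_smul, Pi.smul_apply, smul_eq_mul, mul_comm]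
  have hone : m 1 = 1 := by
    ext i j
    rw [Matrix.one_apply]
    change ind k F j (xt F i) = _
    unfold ind
    simp only [xt_apply, funext_iff]
  have hz : ∀ Z ∈ TS k F (dd g), ∀ i l : F → Fin 3,
      par F (xt F i) 1 + par F (xt F l) 1 ≠ 1 → m Z i l = 0 := by
    intro Z hZ i l h
    refine ind_zero k hZ fun h' => h ?_
    have h3 := congrFun h' 1
    simp only [Pi.add_apply, dd, if_true, if_neg hg.symm, add_zero] at h3
    exact h3
  have hc1 := card_le k (m X) (m Y) (fun i => par F (xt F i) 1 = 0) (by rw [← hm X Y hYF, hXY, hone])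
    (fun i l h h' => hz X hXF i l (by rw [h, h']; decide))
  have hc2 := card_le k (m X) (m Y) (fun i => ¬ par F (xt F i) 1 = 0)
    (by rw [← hm X Y hYF, hXY, hone])
    (fun i l h h' => hz X hXF i l (by
      have : ∀ a b : ZMod 2, ¬ a = 0 → ¬ b = 0 → a + b ≠ 1 := by decide
      exact this _ _ h h'))
  have hc3 : Fintype.card {i : F → Fin 3 // ¬ ¬ par F (xt F i) 1 = 0} =
      Fintype.card {i : F → Fin 3 // par F (xt F i) 1 = 0} :=
    Fintype.card_congr (Equiv.subtypeEquivRight fun i => not_not)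
  rw [hc3] at hc2
  have hc4 := Fintype.card_congr (Equiv.sumCompl fun i : F → Fin 3 => par F (xt F i) 1 = 0)
  rw [Fintype.card_sum, Fintype.card_fun, Fintype.card_fin] at hc4
  have hodd : Odd (3 ^ Fintype.card F) := Odd.pow (by decide)
  rw [← hc4, Nat.odd_iff] at hodd
  omega

end Concrete

/-- Every strongly `G`-graded, `G`-controlled ring (in the universe of `G`) is a crossed
product. -/
def AlwaysCrossed (G : Type u) [Group G] : Prop :=
  ∀ (R : Type u) [Ring R] (A : G → AddSubgroup R), IsGraded A → IsStrong A → IsControlled A →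
    IsCrossedProduct A

/-- **The assertion of Q1 fails for every nontrivial group.** Let `G` be a nontrivial group and `k`
a field. There is a strongly `G`-graded, `G`-controlled `k`-algebra `R` such that no component
`R_g`, `g ≠ 1`, contains a unit of `R`. Hence every strongly `G`-graded, `G`-controlled ring is a
`G`-crossed product if and only if `G` is trivial. -/
theorem result (G : Type u) [Group G] :
    (Nontrivial G → ∀ (k : Type v) [Field k],
      ∃ (R : Type (max u v)) (_ : Ring R) (_ : Algebra k R) (A : G → AddSubgroup R),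
        (∀ (g : G) (c : k), ∀ x ∈ A g, c • x ∈ A g) ∧
        IsGraded A ∧ IsStrong A ∧ IsControlled A ∧ ∀ g, g ≠ 1 → ∀ x ∈ A g, ¬ IsUnit x) ∧
    (AlwaysCrossed G ↔ Subsingleton G) := by
  classical
  refine ⟨fun _ k _ => ⟨RR G k, inferInstance, inferInstance, AA G k,
    fun g c x hx => (BB k g).smul_mem c hx, (good G k).graded,
    (good G k).strong, (good G k).controlled, fun g hg x hx => no_unit k hg x hx⟩, fun h => ?_,
    fun h R _ A hA _ _ g => ⟨1, ?_, isUnit_one⟩⟩
  · by_contra hG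
    rw [not_subsingleton_iff_nontrivial] at hG
    obtain ⟨g, hg⟩ := _root_.exists_ne (1 : G)
    obtain ⟨x, hx, hu⟩ := h (RR G ℚ) (AA G ℚ) (good G ℚ).graded (good G ℚ).strong
      (good G ℚ).controlled g
    exact no_unit ℚ hg x hx hu
  · have h1 : ⨆ g, A g = A g := le_antisymm (iSup_le fun h => by rw [Subsingleton.elim h g])
      (le_iSup A g)
    rw [← h1, hA.top]
    trivial

end Pool.Agent.Results.MP_26bbbf_al.EveryGroup
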